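import Pool.Agent.H426R3.SQ.Q4
import Pool.Agent.H683R3.SQ.Freq2

set_option autoImplicit false

/-! # MP_bf4c7f_nt (Oppermann): the endpoints of Oppermann's intervals in long prime gaps

Oppermann's conjecture: `(x² - x, x²)` and `(x², x² + x)` contain primes for all `x > 1`.  Put
`f(X) = log X (log₂ X)² log₄ X / (log₃ X)²` (iterated logarithms).  There is `c > 0` such that for
all large `X`, all `2 (log X)^(-1/2) ≤ ε ≤ 1` and all `J, Z ≥ 1` with `Z ≥ ε log X` and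
`J Z ≤ c ε f(X)` at least `X^(1-ε)` of the `n ≤ X` have the following property: for each of the `J`
consecutive integers `x = n, …, n + J - 1` neither `x²` nor `x² + x` has a prime within `Z`.

(`J = 2`, `x = n + 1`: all three endpoints `x² - x`, `x²`, `x² + x` of the two intervals of
Oppermann, with `Z` of size `f(X)`; `Z = ⌈ε log X⌉`: more than `(log₂ X)^(2-δ)` consecutive `x`.)

The existence of one such run in every interval `(M, M + Y]` is `MP_69be96_nt.ConsecutiveSquares`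
(project SQ, helper426 with helpers 535, 298, 959, 577, 77, 338, 879, 881, 36, 551, 747, 90, 459,
926, 512, 896, 268, 222, 806, 195, 318, 880, 255, 794, 377; engine by helper256); the frequency
statement is by helper683 (for squares only, `J = 1`, fixed `ε`, it is also in
`MP_73869e_nt.ManyEmpty` by helper601). -/

namespace Pool.Agent.Results.MP_bf4c7f_nt.EndpointsInLongGaps

open Filter

theorem result : ∃ c : ℝ, 0 < c ∧ ∀ᶠ X : ℕ in atTop,
    ∀ ε : ℝ, 2 / Real.sqrt (Real.log X) ≤ ε → ε ≤ 1 →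
    ∀ J Z : ℕ, 1 ≤ J → ε * Real.log X ≤ Z →
      (J : ℝ) * Z ≤ c * ε * (Real.log X * (Real.log (Real.log X)) ^ 2 *
          Real.log (Real.log (Real.log (Real.log X))) /
            (Real.log (Real.log (Real.log X))) ^ 2) →
    ∃ S : Finset ℕ,
      (∀ n ∈ S, 1 ≤ n ∧ n ≤ X ∧ ∀ j : ℕ, j < J → ∀ q : ℕ, q.Prime →
        (Z : ℝ) < |(q : ℝ) - ((n : ℝ) + j) ^ 2| ∧
        (Z : ℝ) < |(q : ℝ) - ((n : ℝ) + j) * ((n : ℝ) + j + 1)|) ∧
      (X : ℝ) ^ (1 - ε) ≤ S.card := by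
  obtain ⟨c, hc, Y₀, h⟩ := Pool.Agent.H426R3.SQ.squares_pronics_main
  refine ⟨c / 16, by positivity, ?_⟩
  have key := Pool.Agent.H683R3.SQ.freq2
    (fun (i : ℕ × ℕ) n => ∀ j : ℕ, j < i.1 → ∀ q : ℕ, q.Prime →
      (i.2 : ℝ) < |(q : ℝ) - ((n : ℝ) + j) ^ 2| ∧
        (i.2 : ℝ) < |(q : ℝ) - ((n : ℝ) + j) * ((n : ℝ) + j + 1)|)
    (fun i Y => 1 ≤ i.1 ∧ Real.log Y ≤ i.2 ∧ (i.1 : ℝ) * i.2 ≤ c * Pool.Agent.H683R3.SQ.rec Y) (by
      filter_upwards [eventually_ge_atTop Y₀] with Y hY M hM i hi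
      exact h Y hY M hM i.1 i.2 hi.1 hi.2.1 hi.2.2)
  filter_upwards [key, Pool.Agent.H683R3.SQ.rec_half, eventually_ge_atTop 2,
    (Real.tendsto_log_atTop.comp (tendsto_natCast_atTop_atTop (R := ℝ))).eventually_ge_atTop 1]
    with X hX hrec hX2 hlog ε hε hε1 J Z hJ hZ hJZ
  have hX0 : (0 : ℝ) < X := by
    have : (2 : ℝ) ≤ X := by exact_mod_cast hX2
    linarith
  have hlog' : 1 ≤ Real.log (X : ℝ) := hlog
  have hε0 : 0 < ε := lt_of_lt_of_le (by positivity) hε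
  refine hX ε hε hε1 (J, Z) ⟨hJ, ?_, ?_⟩
  · show Real.log ((X : ℝ) ^ (ε / 2)) ≤ (Z : ℝ)
    rw [Real.log_rpow hX0]
    have : 0 ≤ ε * Real.log (X : ℝ) := by positivity
    linarith
  · show (J : ℝ) * Z ≤ c * Pool.Agent.H683R3.SQ.rec ((X : ℝ) ^ (ε / 2))
    have h1 := mul_le_mul_of_nonneg_left (hrec ε hε hε1) hc.le
    have h2 : (J : ℝ) * Z ≤ c / 16 * ε * Pool.Agent.H683R3.SQ.rec X := hJZ
    have h3 : c / 16 * ε * Pool.Agent.H683R3.SQ.rec X =
        c * (ε / 16 * Pool.Agent.H683R3.SQ.rec X) := by ring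
    rw [h3] at h2
    exact h2.trans h1

end Pool.Agent.Results.MP_bf4c7f_nt.EndpointsInLongGaps
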