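import Pool.Agent.H447R4.PA.FinX
import Pool.Agent.H447R4.PA.Lam

set_option autoImplicit false

/-!
MP_bf4c7f_nt (Oppermann's conjecture): a parity analogue, explicit.  If x ≥ 10^170 (K+1)^24, then at
least one of the two Oppermann intervals (x^2 - x, x^2), (x^2, x^2 + x) contains at least K integers
with an odd number of prime factors and also at least K integers with an even number of prime
factors.
-/

namespace Pool.Agent.Results.MP_bf4c7f_nt.ParityOppermann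

open Pool.Agent.H447R4.PA

theorem result :
    (∀ f : ℕ → ℤ, CM f → ∀ x K : ℕ, 10 ^ 170 * (K + 1) ^ 24 ≤ x →
      ∃ I : Finset ℕ, (I = Finset.Ioo (x ^ 2 - x) (x ^ 2) ∨ I = Finset.Ioo (x ^ 2) (x ^ 2 + x)) ∧
        ∀ c : ℤ, (c = 1 ∨ c = -1) → K ≤ (I.filter (fun y => f y = c)).card) ∧
    (∀ x K : ℕ, 10 ^ 170 * (K + 1) ^ 24 ≤ x →
      ∃ I : Finset ℕ, (I = Finset.Ioo (x ^ 2 - x) (x ^ 2) ∨ I = Finset.Ioo (x ^ 2) (x ^ 2 + x)) ∧
        ∀ j : ℕ, j < 2 →
          K ≤ (I.filter (fun y => ArithmeticFunction.cardFactors y % 2 = j)).card) := by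
  have h1 : ∀ f : ℕ → ℤ, CM f → ∀ x K : ℕ, 10 ^ 170 * (K + 1) ^ 24 ≤ x →
      ∃ I : Finset ℕ, (I = Finset.Ioo (x ^ 2 - x) (x ^ 2) ∨ I = Finset.Ioo (x ^ 2) (x ^ 2 + x)) ∧
        ∀ c : ℤ, (c = 1 ∨ c = -1) → K ≤ (I.filter (fun y => f y = c)).card := by
    intro f hf x K hx
    rcases opp_coreX f hf x K hx with h2 | h2
    · refine ⟨_, Or.inl rfl, ?_⟩
      intro c hc
      rcases hc with rfl | rfl
      · exact h2.1
      · exact h2.2
    · refine ⟨_, Or.inr rfl, ?_⟩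
      intro c hc
      rcases hc with rfl | rfl
      · exact h2.1
      · exact h2.2
  refine ⟨h1, ?_⟩
  intro x K hx
  obtain ⟨I, hI, h2⟩ := h1 lam lam_CM x K hx
  refine ⟨I, hI, ?_⟩
  intro j hj
  rw [← lam_filter _ j hj]
  exact h2 _ (neg_one_pow_eq_or ℤ j)

end Pool.Agent.Results.MP_bf4c7f_nt.ParityOppermann
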