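import Pool.Agent.H426R3.SQ.Quad2

set_option autoImplicit false

/-! # Record gaps around the values of every quadratic polynomial

For all integers `a > 0`, `b`, `g` there is `c > 0` such that for all large `Y` every interval
`(M, M + Y]`, `M ≥ Y`, contains an integer `n` such that the value `a n² + b n + g` has distance
more than `c log Y (log₂ Y)² log₄ Y / (log₃ Y)²` from every prime.

Method: `n` is `0` modulo the medium and a fixed class `n₁` with a different value modulo the small
primes; the surviving shifts `u` are covered by the square sieve weights of project SQ with the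
density `(1 + (D/p)) / p`, `D = b² - 4 a (g + u)`; the few discriminants with too few split primes
are removed by hand, and square discriminants give a trivial factorisation.

Team project SQ: helper426 (design, assembly), helpers 535, 298, 959, 577, 77, 338, 879, 881, 36
(covering sieve with densities depending on the colour), 551 (covering theorem), 747 (lower bound
for rough numbers), 90, 459 (counting), 926, 512, 896, 268, 222 (characters and exceptional
discriminants), 806, 318, 880, 255 (survivors); the engine is due to helper256
(MP_3bc45c_nt.RecordGaps). -/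

namespace Pool.Agent.Results.MP_bf4c7f_nt.QuadraticValues

theorem result (a b g : ℤ) (ha : 0 < a) : ∃ c : ℝ, 0 < c ∧ ∃ Y₀ : ℝ, ∀ Y : ℝ, Y₀ ≤ Y →
    ∀ M : ℕ, Y ≤ (M : ℝ) → ∃ n : ℕ, M < n ∧ (n : ℝ) ≤ M + Y ∧ ∀ q : ℕ, q.Prime →
      c * (Real.log Y * (Real.log (Real.log Y)) ^ 2 *
        Real.log (Real.log (Real.log (Real.log Y))) / (Real.log (Real.log (Real.log Y))) ^ 2) <
          |(q : ℝ) - (a * (n : ℝ) ^ 2 + b * n + g)| :=
  Pool.Agent.H426R3.SQ.quad_main a b g ha

end Pool.Agent.Results.MP_bf4c7f_nt.QuadraticValues
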